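import Pool.Agent.Q181.LR.At
import Pool.Agent.Q181.LG.Win
import Pool.Agent.Q26.LG.Str
import Pool.Agent.Q26.LG.Tent
import Pool.Agent.Q151.LG.Up
import Pool.Agent.Q190.LG.GI
import Pool.Agent.Y477.AV.TFc

set_option autoImplicit false
set_option linter.unusedSectionVars false

/-! Kernel dimensions of integer matrices with a spectral gap and norm close to `3 / √2`. -/

namespace Pool.Agent.Q162.LG

open Matrix TH57.Thr TH57.Thr.Ati
open Pool.Agent.W656.VA (kerDim)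
open Pool.Agent.Y477.AV
open Pool.Agent.Q181.LR (Eqv Struct kap_of_struct kap_eqv NormLE_sub)
open Pool.Agent.Q181.LG
open Pool.Agent.Q151.LG (gap_mono gap_sub gi_sub)

theorem s_str : S_str :=
  Pool.Agent.Q26.LG.t_str
    (Pool.Agent.Q26.LG.t_notri Pool.Agent.Q190.LG.t_g1 Pool.Agent.Q26.LG.t_tent)

theorem s_up : S_up := Pool.Agent.Q151.LG.t_up Pool.Agent.Q151.LG.t_eqv Pool.Agent.Q151.LG.t_zs

variable {G : Type} [Group G]

/-- values in the group of the finite subgroups, all groups -/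
theorem gap_lam {m n : ℕ} (K : ℕ) (N : Matrix (Fin m) (Fin n) (MonoidAlgebra ℤ G))
    (hK : Gapped N ((K : ℝ) ^ 2) ∨ GI N K)
    (hN : NormLE N (3 / Real.sqrt 2 + (1 / 2) ^ (16 * K + 31)))
    (A : Matrix (Fin m) (Fin n) (G →₀ ℂ)) (hA : ∀ i j g, A i j g ≠ 0 → (N i j).coeff g ≠ 0) :
    kerDim A ∈ Lam G := by
  have hg : Gapped N ((K : ℝ) ^ 2) := by
    rcases hK with h | h
    · exact h
    · exact (Pool.Agent.Q190.LG.t_gi G _ _ N).1 K h
  rw [kerDim_kap]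
  exact kap_of_struct N (s_str G _ _ N K hg hN).1 (ofm A) hA

/-- integrality for torsion-free groups -/
theorem gap_law (hG : ∀ g : G, ∀ n : ℕ, 0 < n → g ^ n = 1 → g = 1) {m n : ℕ} (K : ℕ)
    (N : Matrix (Fin m) (Fin n) (MonoidAlgebra ℤ G)) (hK : Gapped N ((K : ℝ) ^ 2) ∨ GI N K)
    (hN : NormLE N (3 / Real.sqrt 2 + (1 / 2) ^ (16 * K + 31)))
    (A : Matrix (Fin m) (Fin n) (G →₀ ℂ)) (hA : ∀ i j g, A i j g ≠ 0 → (N i j).coeff g ≠ 0) :
    ∃ z : ℤ, kerDim A = z := by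
  obtain ⟨z, hz⟩ := Lam_int G 1 (Pool.Agent.W656.VA.isLcm_one hG).2.1 _ (gap_lam K N hK hN A hA)
  refine ⟨z, ?_⟩
  rw [← hz]
  push_cast
  ring

/-- matrices of small norm with the same kernel dimension -/
theorem small {m n : ℕ} (A : Matrix (Fin m) (Fin n) (MonoidAlgebra ℤ G)) :
    ∃ C : ℕ, ∀ L : ℕ, 1 ≤ L →
      ∃ (k : ℕ) (B : Matrix (Fin (m + k)) (Fin (n + k)) (MonoidAlgebra ℤ G)),
        k ≤ C * L ∧ NormLE B (3 / Real.sqrt 2 + (1 / 2) ^ L) ∧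
        kerDim (cx B) = kerDim (cx A) ∧
        (∀ D : ℝ, 0 ≤ D → Gapped A D → Gapped B (C * (D + 1) * L ^ 2)) ∧
        (∀ K : ℝ, 0 ≤ K → GI A K → GI B (C * (K + 1) * L)) := by
  obtain ⟨C, hC⟩ := s_up G (Fin m) (Fin n) A
  refine ⟨C, fun L hL => ?_⟩
  obtain ⟨k, B, hE, hk, hN, hg, hi⟩ := hC L hL
  refine ⟨k, B.submatrix finSumFinEquiv.symm finSumFinEquiv.symm, hk, NormLE_sub _ _ _ _ hN, ?_,
    fun D hD h => gap_sub _ _ (hg D hD h), fun K hK h => gi_sub _ _ (hi K hK h)⟩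
  rw [kerDim_cx, kerDim_cx]
  exact (kap_re finSumFinEquiv.symm finSumFinEquiv.symm
      (B.map (MonoidAlgebra.mapRingHom G (Int.castRingHom ℂ)))).trans (kap_eqv A B hE)

/-- **The conjecture for matrices with a spectral gap lives in the windows.** -/
theorem windows (P : ℝ → Prop) :
    (∀ (m n : ℕ) (N : Matrix (Fin m) (Fin n) (MonoidAlgebra ℤ G)), (∃ D : ℝ, Gapped N D) →
      P (kerDim (cx N))) ↔
    ∀ k : ℕ, ∃ L : ℕ, 1 ≤ L ∧
      ∀ (m n : ℕ) (N : Matrix (Fin m) (Fin n) (MonoidAlgebra ℤ G)), m ≤ k * L → n ≤ k * L →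
        NormLE N (3 / Real.sqrt 2 + (1 / 2) ^ L) → Gapped N (((k * L : ℕ) : ℝ) ^ 2) →
        P (kerDim (cx N)) := by
  constructor
  · intro h k
    exact ⟨1, le_rfl, fun m n N _ _ _ hg => h m n N ⟨_, hg⟩⟩
  · rintro h m n N ⟨D, hD⟩
    obtain ⟨C, hC⟩ := small N
    obtain ⟨E, hE⟩ := exists_nat_ge (max D 0)
    have hE0 : 0 ≤ (E : ℝ) := Nat.cast_nonneg E
    have hDE : D ≤ (E : ℝ) := (le_max_left D 0).trans hE
    obtain ⟨L, hL, hL'⟩ := h (m + n + C + E + 1)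
    obtain ⟨k, B, hk, hB, hd, hg, -⟩ := hC L hL
    rw [← hd]
    have hkL : m + k ≤ (m + n + C + E + 1) * L := by nlinarith [Nat.zero_le n, Nat.zero_le m]
    have hkL' : n + k ≤ (m + n + C + E + 1) * L := by nlinarith [Nat.zero_le n, Nat.zero_le m]
    refine hL' _ _ B hkL hkL' hB (gap_mono ?_ (hg E hE0 (gap_mono hDE hD)))
    have h1 : (C : ℝ) * ((E : ℝ) + 1) ≤ ((m + n + C + E + 1 : ℕ) : ℝ) ^ 2 := by
      have : C * (E + 1) ≤ (m + n + C + E + 1) ^ 2 := by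
        have h2 : C ≤ m + n + C + E + 1 := by omega
        have h3 : E + 1 ≤ m + n + C + E + 1 := by omega
        calc C * (E + 1) ≤ (m + n + C + E + 1) * (m + n + C + E + 1) := Nat.mul_le_mul h2 h3
          _ = _ := by ring
      exact_mod_cast this
    calc (C : ℝ) * ((E : ℝ) + 1) * (L : ℝ) ^ 2
        ≤ ((m + n + C + E + 1 : ℕ) : ℝ) ^ 2 * (L : ℝ) ^ 2 :=
          mul_le_mul_of_nonneg_right h1 (sq_nonneg _)
      _ = (((m + n + C + E + 1) * L : ℕ) : ℝ) ^ 2 := by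
          push_cast
          ring

theorem int_of_lam (hG : ∀ g : G, ∀ n : ℕ, 0 < n → g ^ n = 1 → g = 1) {x : ℝ} (hx : x ∈ Lam G) :
    ∃ z : ℤ, x = z := by
  obtain ⟨z, hz⟩ := Lam_int G 1 (Pool.Agent.W656.VA.isLcm_one hG).2.1 _ hx
  refine ⟨z, ?_⟩
  rw [← hz]
  push_cast
  ring

theorem norm_mono {m n : ℕ} {N : Matrix (Fin m) (Fin n) (MonoidAlgebra ℤ G)} {L L' : ℕ}
    (h : L' ≤ L) (hN : NormLE N (3 / Real.sqrt 2 + (1 / 2) ^ L)) :
    NormLE N (3 / Real.sqrt 2 + (1 / 2) ^ L') := by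
  refine Pool.Agent.Q181.LW.NormLE_mono (by positivity) ?_ hN
  have h1 : (1 / 2 : ℝ) ^ L ≤ (1 / 2) ^ L' :=
    pow_le_pow_of_le_one (by norm_num) (by norm_num) h
  linarith

/-- size or gap: integrality for torsion-free groups -/
theorem win_law (hG : ∀ g : G, ∀ n : ℕ, 0 < n → g ^ n = 1 → g = 1) {m n : ℕ} (L : ℕ)
    (N : Matrix (Fin m) (Fin n) (MonoidAlgebra ℤ G))
    (hN : NormLE N (3 / Real.sqrt 2 + (1 / 2) ^ L))
    (h : 2 * min m n + 30 ≤ L ∨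
      ∃ K : ℕ, 16 * K + 31 ≤ L ∧ (Gapped N ((K : ℝ) ^ 2) ∨ GI N K))
    (A : Matrix (Fin m) (Fin n) (G →₀ ℂ)) (hA : ∀ i j g, A i j g ≠ 0 → (N i j).coeff g ≠ 0) :
    ∃ z : ℤ, kerDim A = z := by
  rcases h with h | ⟨K, hKL, hK⟩
  · exact int_of_lam hG (Pool.Agent.Q181.LR.below_law N (norm_mono h hN) A hA)
  · exact gap_law hG K N hK (norm_mono hKL hN) A hA

theorem cx_supp {m n : ℕ} (N : Matrix (Fin m) (Fin n) (MonoidAlgebra ℤ G)) :
    ∀ i j g, cx N i j g ≠ 0 → (N i j).coeff g ≠ 0 := by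
  intro i j g h h0
  apply h
  change (((N i j).coeff g : ℤ) : ℂ) = 0
  rw [h0, Int.cast_zero]

/-- **The conjecture for matrices with a spectral gap lives at the logarithmic scale.** -/
theorem windows_tf (hG : ∀ g : G, ∀ n : ℕ, 0 < n → g ^ n = 1 → g = 1) :
    (∀ (m n : ℕ) (N : Matrix (Fin m) (Fin n) (MonoidAlgebra ℤ G)), (∃ D : ℝ, Gapped N D) →
      ∃ z : ℤ, kerDim (cx N) = z) ↔
    ∀ k : ℕ, ∃ L : ℕ, 1 ≤ L ∧
      ∀ (m n : ℕ) (N : Matrix (Fin m) (Fin n) (MonoidAlgebra ℤ G)), m ≤ k * L → n ≤ k * L →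
        NormLE N (3 / Real.sqrt 2 + (1 / 2) ^ L) → Gapped N (((k * L : ℕ) : ℝ) ^ 2) →
        L < 2 * min m n + 30 →
        (∀ K : ℕ, Gapped N ((K : ℝ) ^ 2) ∨ GI N K → L < 16 * K + 31) →
        ∃ z : ℤ, kerDim (cx N) = z := by
  constructor
  · intro h k
    exact ⟨1, le_rfl, fun m n N _ _ _ hg _ _ => h m n N ⟨_, hg⟩⟩
  · intro h
    refine (windows fun x => ∃ z : ℤ, x = z).2 fun k => ?_
    obtain ⟨L, hL, hL'⟩ := h k
    refine ⟨L, hL, fun m n N hm hn hN hg => ?_⟩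
    by_cases h1 : 2 * min m n + 30 ≤ L
    · exact win_law hG L N hN (Or.inl h1) _ (cx_supp N)
    · by_cases h2 : ∃ K : ℕ, 16 * K + 31 ≤ L ∧ (Gapped N ((K : ℝ) ^ 2) ∨ GI N K)
      · exact win_law hG L N hN (Or.inr h2) _ (cx_supp N)
      · refine hL' m n N hm hn hN hg (by omega) fun K hK => ?_
        by_contra h3
        exact h2 ⟨K, by omega, hK⟩

end Pool.Agent.Q162.LG
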